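import Pool.Agent.MWI.StmtsT

set_option autoImplicit false

namespace Pool.Agent.MWI.H15

open Pool.Agent.Helper14_MV Pool.Agent.Helper2_MV Pool.Agent.MWF Pool.Agent.MWI

/-- what is inserted after the letter before the left places `P` -/
def Nx (b : ℕ → ℕ) (u : List ℕ) : List ℕ → List ℕ
  | [] => u
  | i :: _ => if b i = 0 then [] else [3 * i + 2]

theorem Nx_cons (b : ℕ → ℕ) (u : List ℕ) (i : ℕ) (P : List ℕ) :
    Nx b u (i :: P) = if b i = 0 then [] else [3 * i + 2] := rfl

/-- the values of `g` at the letters `t_i` of the left places -/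
def GdL (b : ℕ → ℕ) (u : List ℕ) (g : ℕ → List ℕ) : List ℕ → Prop
  | [] => True
  | i :: P => g (3 * i + 1) = (if b i = 0 then [3 * i + 2] else []) ++ (3 * i + 1) :: Nx b u P ∧
      GdL b u g P

/-- the values of `g` at the letters `t_i` of the right places -/
def GdR (a : ℕ → ℕ) (g : ℕ → List ℕ) : List ℕ → List ℕ → Prop
  | _, [] => True
  | e, i :: Q => g (3 * i + 1) = e ++ (3 * i + 1) :: (if a i = 0 then [3 * i + 2] else []) ∧
      GdR a g (if a i = 0 then [] else [3 * i + 2]) Q

/-- the rest at the right end -/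
def Re (a : ℕ → ℕ) : List ℕ → List ℕ → List ℕ
  | e, [] => e
  | _, i :: Q => Re a (if a i = 0 then [] else [3 * i + 2]) Q

/-- left places without `z` -/
def pAt (a b : ℕ → ℕ) (P : List ℕ) : List ℕ := P.flatMap (fun i =>
  List.replicate (a i) 0 ++ (List.replicate (b i) 0 ++ [3 * i + 1]))

/-- right places without `z` -/
def pCt (a b : ℕ → ℕ) (Q : List ℕ) : List ℕ := Q.flatMap (fun i =>
  (3 * i + 1) :: (List.replicate (a i) 0 ++ List.replicate (b i) 0))

theorem rep_flat {g : ℕ → List ℕ} (h0 : g 0 = [0]) (n : ℕ) :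
    (List.replicate n 0).flatMap g = List.replicate n 0 := by
  induction n with
  | zero => rfl
  | succ n ih => rw [List.replicate_succ, List.flatMap_cons, ih, h0]; rfl

theorem left1 {a b : ℕ → ℕ} (hab : ∀ i, a i = 0 ∨ b i = 0) (u : List ℕ) {g : ℕ → List ℕ}
    (h0 : g 0 = [0]) : ∀ P : List ℕ, GdL b u g P →
      Nx b u P ++ (pAt a b P).flatMap g = pA a b P ++ u := by
  intro P
  induction P with
  | nil => intro _; simp [Nx, pAt, pA]
  | cons i P ih =>
    rintro ⟨h1, h2⟩
    have h3 := ih h2
    have e1 : pAt a b (i :: P) = List.replicate (a i) 0 ++ (List.replicate (b i) 0 ++ [3 * i + 1])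
      ++ pAt a b P := by
      unfold pAt
      rw [List.flatMap_cons]
    have e2 : pA a b (i :: P) = List.replicate (a i) 0 ++ (3 * i + 2) :: (List.replicate (b i) 0
      ++ [3 * i + 1]) ++ pA a b P := by
      unfold pA
      rw [List.flatMap_cons]
    rw [e1, e2, List.flatMap_append, List.flatMap_append, List.flatMap_append, rep_flat h0,
      rep_flat h0, List.flatMap_singleton, h1]
    rcases Nat.eq_zero_or_pos (b i) with hb | hb
    · simp only [Nx_cons, hb, if_true, List.replicate_zero, List.nil_append, List.append_assoc,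
        List.cons_append, List.singleton_append]
      rw [h3]
    · have ha : a i = 0 := (hab i).resolve_right (by omega)
      have hb' : b i ≠ 0 := by omega
      simp only [Nx_cons, ha, if_neg hb', List.replicate_zero, List.nil_append, List.append_assoc,
        List.cons_append, List.singleton_append]
      rw [h3]

theorem left0 {b : ℕ → ℕ} (u : List ℕ) {g : ℕ → List ℕ} : ∀ P : List ℕ, GdL b u g P →
      Nx b u P ++ (ts P).flatMap g = pl P ++ u := by
  intro P
  induction P with
  | nil => intro _; simp [Nx, ts, pl]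
  | cons i P ih =>
    rintro ⟨h1, h2⟩
    have h3 := ih h2
    have e1 : ts (i :: P) = (3 * i + 1) :: ts P := rfl
    have e2 : pl (i :: P) = [3 * i + 2, 3 * i + 1] ++ pl P := by
      unfold pl
      rw [List.flatMap_cons]
    rw [e1, e2, List.flatMap_cons, h1]
    rcases Nat.eq_zero_or_pos (b i) with hb | hb
    · simp only [Nx_cons, hb, if_true, List.nil_append, List.append_assoc,
        List.cons_append, List.singleton_append]
      rw [h3]
    · have hb' : b i ≠ 0 := by omega
      simp only [Nx_cons, if_neg hb', List.nil_append, List.append_assoc,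
        List.cons_append, List.singleton_append]
      rw [h3]

theorem right1 {a b : ℕ → ℕ} (hab : ∀ i, a i = 0 ∨ b i = 0) {g : ℕ → List ℕ}
    (h0 : g 0 = [0]) : ∀ (Q e : List ℕ), GdR a g e Q →
      (pCt a b Q).flatMap g ++ Re a e Q = e ++ pC a b Q := by
  intro Q
  induction Q with
  | nil => intro e _; simp [Re, pCt, pC]
  | cons i Q ih =>
    rintro e ⟨h1, h2⟩
    have h3 := ih _ h2
    have e1 : pCt a b (i :: Q) = (3 * i + 1) :: (List.replicate (a i) 0 ++ List.replicate (b i) 0)
      ++ pCt a b Q := by
      unfold pCt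
      rw [List.flatMap_cons]
    have e2 : pC a b (i :: Q) = (3 * i + 1) :: (List.replicate (a i) 0 ++ (3 * i + 2) ::
      List.replicate (b i) 0) ++ pC a b Q := by
      unfold pC
      rw [List.flatMap_cons]
    have e3 : Re a e (i :: Q) = Re a (if a i = 0 then [] else [3 * i + 2]) Q := rfl
    rw [e1, e2, e3, List.flatMap_append, List.flatMap_cons, List.flatMap_append, rep_flat h0,
      rep_flat h0, h1, List.append_assoc, h3]
    rcases Nat.eq_zero_or_pos (a i) with ha | ha
    · simp only [ha, if_true, List.replicate_zero, List.nil_append, List.append_assoc,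
        List.cons_append, List.singleton_append]
    · have hb : b i = 0 := (hab i).resolve_left (by omega)
      have ha' : a i ≠ 0 := by omega
      simp only [hb, if_neg ha', List.replicate_zero, List.nil_append, List.append_assoc,
        List.cons_append, List.append_nil]

theorem right0 {a : ℕ → ℕ} {g : ℕ → List ℕ} : ∀ (Q e : List ℕ), GdR a g e Q →
      (ts Q).flatMap g ++ Re a e Q = e ++ pr Q := by
  intro Q
  induction Q with
  | nil => intro e _; simp [Re, ts, pr]
  | cons i Q ih =>
    rintro e ⟨h1, h2⟩
    have h3 := ih _ h2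
    have e1 : ts (i :: Q) = (3 * i + 1) :: ts Q := rfl
    have e2 : pr (i :: Q) = [3 * i + 1, 3 * i + 2] ++ pr Q := by
      unfold pr
      rw [List.flatMap_cons]
    have e3 : Re a e (i :: Q) = Re a (if a i = 0 then [] else [3 * i + 2]) Q := rfl
    rw [e1, e2, e3, List.flatMap_cons, h1, List.append_assoc, h3]
    rcases Nat.eq_zero_or_pos (a i) with ha | ha
    · simp only [ha, if_true, List.nil_append, List.append_assoc,
        List.cons_append]
    · have ha' : a i ≠ 0 := by omega
      simp only [if_neg ha', List.nil_append, List.append_assoc, List.cons_append]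

theorem GdL_congr {b : ℕ → ℕ} {u : List ℕ} {g g' : ℕ → List ℕ} : ∀ P : List ℕ,
    (∀ i ∈ P, g' (3 * i + 1) = g (3 * i + 1)) → GdL b u g P → GdL b u g' P := by
  intro P
  induction P with
  | nil => intro _ _; trivial
  | cons i P ih =>
    rintro h ⟨h1, h2⟩
    exact ⟨by rw [h i (by simp), h1], ih (fun j hj => h j (List.mem_cons_of_mem _ hj)) h2⟩

theorem GdR_congr {a : ℕ → ℕ} {g g' : ℕ → List ℕ} : ∀ (Q e : List ℕ),
    (∀ i ∈ Q, g' (3 * i + 1) = g (3 * i + 1)) → GdR a g e Q → GdR a g' e Q := by
  intro Q
  induction Q with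
  | nil => intro _ _ _; trivial
  | cons i Q ih =>
    rintro e h ⟨h1, h2⟩
    exact ⟨by rw [h i (by simp), h1], ih _ (fun j hj => h j (List.mem_cons_of_mem _ hj)) h2⟩

theorem exists_gR (a : ℕ → ℕ) : ∀ (Q e : List ℕ), Q.Nodup →
    ∃ g : ℕ → List ℕ, g 0 = [0] ∧ GdR a g e Q := by
  intro Q
  induction Q with
  | nil => intro e _; exact ⟨fun c => [c], rfl, trivial⟩
  | cons i Q ih =>
    intro e hn
    obtain ⟨hi, hn'⟩ := List.nodup_cons.1 hn
    obtain ⟨g, h0, h1⟩ := ih (if a i = 0 then [] else [3 * i + 2]) hn'
    refine ⟨Function.update g (3 * i + 1) (e ++ (3 * i + 1) :: (if a i = 0 then [3 * i + 2]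
      else [])), ?_, ?_, ?_⟩
    · rw [Function.update_of_ne (by omega), h0]
    · rw [Function.update_self]
    · refine GdR_congr Q _ (fun j hj => ?_) h1
      rw [Function.update_of_ne]
      intro h
      apply hi
      have : j = i := by omega
      rwa [← this]

theorem exists_g (a b : ℕ → ℕ) (u e Q : List ℕ) : ∀ P : List ℕ, (P ++ Q).Nodup →
    ∃ g : ℕ → List ℕ, g 0 = [0] ∧ GdL b u g P ∧ GdR a g e Q := by
  intro P
  induction P with
  | nil =>
    intro hn
    obtain ⟨g, h0, h1⟩ := exists_gR a Q e hn
    exact ⟨g, h0, trivial, h1⟩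
  | cons i P ih =>
    intro hn
    rw [List.cons_append] at hn
    obtain ⟨hi, hn'⟩ := List.nodup_cons.1 hn
    obtain ⟨g, h0, h1, h2⟩ := ih hn'
    refine ⟨Function.update g (3 * i + 1) ((if b i = 0 then [3 * i + 2] else []) ++
      (3 * i + 1) :: Nx b u P), ?_, ⟨?_, ?_⟩, ?_⟩
    · rw [Function.update_of_ne (by omega), h0]
    · rw [Function.update_self]
    · refine GdL_congr P (fun j hj => ?_) h1
      rw [Function.update_of_ne]
      intro h
      apply hi
      have : j = i := by omega
      rw [← this]
      exact List.mem_append_left _ hj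
    · refine GdR_congr Q _ (fun j hj => ?_) h2
      rw [Function.update_of_ne]
      intro h
      apply hi
      have : j = i := by omega
      rw [← this]
      exact List.mem_append_right _ hj

/-- the projection -/
def pp (c : ℕ) : Bool := decide (c = 0 ∨ c % 3 = 1)

theorem pp0 : pp 0 = true := by simp [pp]
theorem pp1 (i : ℕ) : pp (3 * i + 1) = true := by
  unfold pp
  rw [decide_eq_true_eq]
  right
  omega
theorem pp2 (i : ℕ) : pp (3 * i + 2) = false := by
  unfold pp
  rw [decide_eq_false_iff_not]
  omega

theorem filt_rep (n : ℕ) : (List.replicate n 0).filter pp = List.replicate n 0 := by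
  rw [List.filter_replicate, pp0]
  simp

theorem filt_zz (h : List ℕ) : (zz h).filter pp = [] := by
  rw [List.filter_eq_nil_iff]
  intro c hc
  unfold zz at hc
  obtain ⟨i, _, rfl⟩ := List.mem_map.1 hc
  rw [pp2]
  simp

theorem filt_pl (P : List ℕ) : (pl P).filter pp = ts P := by
  unfold pl ts
  induction P with
  | nil => rfl
  | cons i P ih =>
    rw [List.flatMap_cons, List.filter_append, ih, List.map_cons, List.filter_cons, pp2,
      List.filter_cons, pp1]
    simp

theorem filt_pr (P : List ℕ) : (pr P).filter pp = ts P := by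
  unfold pr ts
  induction P with
  | nil => rfl
  | cons i P ih =>
    rw [List.flatMap_cons, List.filter_append, ih, List.map_cons, List.filter_cons, pp1,
      List.filter_cons, pp2]
    simp

theorem filt_pA (a b : ℕ → ℕ) (P : List ℕ) : (pA a b P).filter pp = pAt a b P := by
  unfold pA pAt
  induction P with
  | nil => rfl
  | cons i P ih =>
    rw [List.flatMap_cons, List.filter_append, ih, List.flatMap_cons, List.filter_append, filt_rep,
      List.filter_cons, pp2, List.filter_append, filt_rep, List.filter_cons, pp1]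
    simp

theorem filt_pC (a b : ℕ → ℕ) (P : List ℕ) : (pC a b P).filter pp = pCt a b P := by
  unfold pC pCt
  induction P with
  | nil => rfl
  | cons i P ih =>
    rw [List.flatMap_cons, List.filter_append, ih, List.flatMap_cons, List.filter_cons, pp1,
      List.filter_append, filt_rep, List.filter_cons, pp2, filt_rep]
    simp

theorem psi : PsiStmt := by
  intro β a b P Q h1 h2 m k hPQ _ hab H
  have hnd : (P ++ Q).Nodup := hPQ.nodup_iff.2 List.nodup_range
  obtain ⟨g, h0, hL, hR⟩ := exists_g a b (zz h1) (zz h2) Q P hnd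
  have hf := RR.filter pp H
  have e0 : (ww P Q (List.range m)).filter pp = ts P ++ 0 :: 0 :: ts Q := by
    unfold ww
    rw [List.filter_append, filt_pl, List.filter_cons, pp0, List.filter_append, filt_zz,
      List.filter_cons, pp0, filt_pr]
    simp
  have e1 : (bb a b P (zz h1 ++ (List.replicate k 0 ++ zz h2)) Q).filter pp =
      pAt a b P ++ (List.replicate k 0 ++ pCt a b Q) := by
    unfold bb
    rw [List.filter_append, List.filter_append, List.filter_append, List.filter_append, filt_pA,
      filt_zz, filt_rep, filt_zz, filt_pC]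
    simp
  rw [e0, e1] at hf
  have hs := ctx (Nx b (zz h1) P) (Re a (zz h2) Q) (hf.sub g)
  have f0 : Nx b (zz h1) P ++ (ts P ++ 0 :: 0 :: ts Q).flatMap g ++ Re a (zz h2) Q =
      pl P ++ (zz h1 ++ 0 :: 0 :: (zz h2 ++ pr Q)) := by
    rw [List.flatMap_append, List.flatMap_cons, List.flatMap_cons, h0, ← right0 Q (zz h2) hR,
      ← List.append_assoc (pl P), ← left0 (zz h1) P hL]
    simp
  have f1 : Nx b (zz h1) P ++ (pAt a b P ++ (List.replicate k 0 ++ pCt a b Q)).flatMap g ++
      Re a (zz h2) Q = bb a b P (zz h1 ++ (List.replicate k 0 ++ zz h2)) Q := by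
    unfold bb
    have g1 := left1 hab (zz h1) h0 P hL
    have g2 := right1 hab h0 Q (zz h2) hR
    rw [List.flatMap_append, List.flatMap_append, rep_flat h0]
    have g3 : pA a b P ++ (zz h1 ++ (List.replicate k 0 ++ zz h2) ++ pC a b Q) =
        (pA a b P ++ zz h1) ++ (List.replicate k 0 ++ (zz h2 ++ pC a b Q)) := by
      simp
    rw [g3, ← g1, ← g2]
    simp
  rw [f0, f1] at hs
  exact rtr H (RR.symm hs)

end Pool.Agent.MWI.H15
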